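import Pool.Agent.W500.CS.Stm2

/-!
# Project CQ: local structure of the support
-/

set_option autoImplicit false

open MeasureTheory Polynomial Metric Set Filter Topology
open scoped ComplexConjugate

namespace Pool.Agent.W486.CQ

open Pool.Agent.H586R3.CT (CT)
open Pool.Agent.W500.CS

lemma measurable_CT (μ : Measure ℂ) [IsFiniteMeasure μ] : Measurable (CT μ) := by
  have h : Measurable (fun p : ℂ × ℂ => (p.1 - p.2)⁻¹) := Pool.Agent.H586R3.CT.measurable_ker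
  exact (h.stronglyMeasurable.integral_prod_right' (ν := μ)).measurable

theorem main : S_PULL → S_GOODL → S_AVG → S_AVS → S_RED → S_T → S_LINK → S_ARC → S_LOCAL := by
  intro hPull hGoodl hAvg hAvs hRed hT hLink hArc μ _ hsupp P hP halg z₀
  obtain ⟨N, K, r, ρ, b, U, hN, hρ, hb, hD, hae⟩ := hPull μ hsupp P hP halg z₀
  -- the function in the uniformising disc
  have hgm : Measurable (fun z : ℂ => CT μ z - (μ.real {z₀} : ℂ) * (z - z₀)⁻¹) := by
    have := measurable_CT μ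
    fun_prop
  have hGm : Measurable (fun s : ℂ => (N : ℂ) * s ^ (N - 1) *
      (CT μ (z₀ + s ^ N) - (μ.real {z₀} : ℂ) * (s ^ N)⁻¹)) := by
    have h1 : Measurable (fun s : ℂ => CT μ (z₀ + s ^ N)) :=
      (measurable_CT μ).comp (by fun_prop)
    fun_prop
  have hlim := hAvs _ z₀ N hN hgm (hAvg μ z₀)
  simp only [add_sub_cancel_left] at hlim
  have hgood := hGoodl r ρ K U b _ hρ hb hD hGm hae hlim
  obtain ⟨R', r', B, U', hR', hR'ρ, hUU', hcont, hD', hB⟩ := hRed r ρ K U b hρ hb hD hgood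
  obtain ⟨n, γ, ε, hε, hγ1, hγ2, hγ3⟩ := hT r' R' U' B hR' hcont hD' hB
  have hae' : ∀ᵐ s : ℂ, s ∈ ball (0 : ℂ) R' \ {0} → HasFDerivAt U'
      (gr ((N : ℂ) * s ^ (N - 1) * (CT μ (z₀ + s ^ N) - (μ.real {z₀} : ℂ) * (s ^ N)⁻¹))) s := by
    filter_upwards [hae] with s hs hsW
    have h0 : s ≠ 0 := fun h => hsW.2 (by simp [h])
    have h1 := hs ⟨ball_subset_ball hR'ρ hsW.1, hsW.2⟩
    refine h1.congr_of_eventuallyEq ?_
    filter_upwards [isOpen_ne.mem_nhds h0] with w hw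
    exact hUU' w hw
  have hlink := hLink μ z₀ (μ.real {z₀} : ℂ) N r' (ball (0 : ℂ) R' \ {0}) U' B hN hD'
    (by simp) hae'
  -- the arcs
  have hfan : ∀ k, AnalyticAt ℝ (fun q : ℝ => z₀ + (γ k q) ^ N) 0 := fun k =>
    analyticAt_const.add ((hγ1 k).1.pow N)
  have hf0 : ∀ k, z₀ + (γ k 0) ^ N = z₀ := fun k => by
    rw [(hγ1 k).2.1, zero_pow hN.ne', add_zero]
  have hne : ∀ k, ¬ ∀ᶠ q in 𝓝[>] (0 : ℝ), z₀ + (γ k q) ^ N = z₀ + (γ k 0) ^ N := by
    intro k h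
    have h1 := h.and (Ioo_mem_nhdsGT hε)
    obtain ⟨q, hq1, hq2⟩ := h1.exists
    rw [hf0 k] at hq1
    have h2 : γ k q ^ N = 0 := by simpa using hq1
    have h3 : γ k q = 0 := by simpa [hN.ne'] using h2
    exact ((hγ2 k q hq2).1).2 (by simp [h3])
  choose ε0 hε0 hε0' using fun k => hArc _ (hfan k) (hne k)
  obtain ⟨ε1, hε1k, hε1⟩ : ∃ ε1 : ℝ, (∀ k, ε1 < ε0 k) ∧ ε1 ∈ Ioo 0 ε := by
    have h1 : ∀ᶠ δ in 𝓝[>] (0 : ℝ), ∀ k, δ < ε0 k := by
      rw [eventually_all]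
      intro k
      filter_upwards [Ioo_mem_nhdsGT (hε0 k)] with δ hδ
      exact hδ.2
    exact (h1.and (Ioo_mem_nhdsGT hε)).exists
  have hin : ∀ k, ∀ q ∈ Ioo 0 ε, z₀ + (γ k q) ^ N ∈ μ.support := fun k q hq =>
    (hlink (γ k q) (hγ2 k q hq).1).2 (hγ2 k q hq).2
  refine ⟨n, fun k => (fun q : ℝ => z₀ + (γ k q) ^ N) '' Icc 0 ε1,
    fun k => ⟨hε0' k ε1 hε1.1 (hε1k k), ?_⟩, ?_⟩
  · rintro _ ⟨q, hq, rfl⟩
    rcases eq_or_lt_of_le hq.1 with h0 | h0
    · subst h0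
      have hcl : IsClosed μ.support := Measure.isClosed_support
      refine hcl.mem_of_tendsto (f := fun q : ℝ => z₀ + (γ k q) ^ N) (b := 𝓝[>] (0 : ℝ)) ?_ ?_
      · exact ((hfan k).continuousAt.tendsto).mono_left nhdsWithin_le_nhds
      · filter_upwards [Ioo_mem_nhdsGT hε] with q hq
        exact hin k q hq
    · exact hin k q ⟨h0, lt_of_le_of_lt hq.2 hε1.2⟩
  · obtain ⟨ρ1, hρ1, hρ1'⟩ := hγ3 ε1 hε1.1 hε1.2.le
    have hpos : 0 < (min ρ1 R') ^ N := pow_pos (lt_min hρ1 hR') N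
    filter_upwards [ball_mem_nhds z₀ hpos] with z hz hzs
    by_cases hzz : z = z₀
    · exact Or.inl hzz
    right
    obtain ⟨s, hs⟩ := IsAlgClosed.exists_pow_nat_eq (z - z₀) hN
    have hs0 : s ≠ 0 := by
      rintro rfl
      rw [zero_pow hN.ne'] at hs
      exact hzz (sub_eq_zero.1 hs.symm)
    have hsn : ‖s‖ < min ρ1 R' := by
      have h1 : ‖s‖ ^ N < (min ρ1 R') ^ N := by
        rw [← norm_pow, hs, ← dist_eq_norm]
        exact hz
      exact lt_of_pow_lt_pow_left₀ N (lt_min hρ1 hR').le h1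
    have hzeq : z₀ + s ^ N = z := by rw [hs]; ring
    have hsW : s ∈ ball (0 : ℂ) R' \ {0} := by
      refine ⟨?_, by simpa using hs0⟩
      rw [mem_ball_zero_iff]
      exact lt_of_lt_of_le hsn (min_le_right _ _)
    have hnd : ¬ DifferentiableAt ℝ U' s := (hlink s hsW).1 (by rw [hzeq]; exact hzs)
    obtain ⟨k, q, hq, hsq⟩ := hρ1' s (norm_pos_iff.2 hs0)
      (lt_of_lt_of_le hsn (min_le_left _ _)) hnd
    refine ⟨k, q, ⟨hq.1.le, hq.2.le⟩, ?_⟩
    show z₀ + (γ k q) ^ N = z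
    rw [← hsq, hzeq]

end Pool.Agent.W486.CQ
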